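import Pool.Agent.H664.EX.Stm2
import Pool.Graph.R_pool_sql_team_seeded_3997aac3.Q166.EG.Lift

/-!
Project EX (helper664): job CURVE2 (helper127), dense exponential points for surfaces in
`ℂ^2 × (ℂ^*)^2`, with further algebraic functions.
-/

set_option autoImplicit false

namespace Pool.Agent.H127.EX

open MvPolynomial Pool.Agent.W996.EC Pool.Agent.Q72.EG Pool.Agent.H664.FH Pool.Agent.H664.EX
open Pool.Agent.H390.FH (subM_subM aeval_subM mul_sum_cast prod_zpow_mul prod_shift)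

section basic

variable {E : Type} [Field E] [Algebra ℂ E]

theorem alg_mono {F₁ F₂ : IntermediateField ℂ E} (h : F₁ ≤ F₂) {a : E} (ha : IsAlgebraic F₁ a) :
    IsAlgebraic F₂ a :=
  IsAlgebraic.ringHom_of_comp_eq (IntermediateField.inclusion h) (RingHom.id E) ha
    (IntermediateField.inclusion h).injective (by ext; rfl)

theorem exists_cl (A : Set E) : ∃ K : IntermediateField ℂ E, (∀ f, f ∈ K ↔ Al A f) ∧
    (∀ f : E, IsAlgebraic K f → f ∈ K) ∧ IntermediateField.adjoin ℂ A ≤ K := by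
  obtain ⟨K, hK⟩ : ∃ K : IntermediateField ℂ E, K = (algebraicClosure
    (IntermediateField.adjoin ℂ A) E).restrictScalars ℂ := ⟨_, rfl⟩
  have mK : ∀ f : E, f ∈ K ↔ Al A f := by
    intro f
    rw [hK, IntermediateField.mem_restrictScalars, mem_algebraicClosure_iff]
  refine ⟨K, mK, ?_, ?_⟩
  · intro f hf
    rw [mK]
    subst hK
    have hf' : IsAlgebraic (algebraicClosure (IntermediateField.adjoin ℂ A) E) f := hf
    exact hf'.restrictScalars (IntermediateField.adjoin ℂ A)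
  · intro f hf
    rw [mK]
    exact isAlgebraic_algebraMap (⟨f, hf⟩ : IntermediateField.adjoin ℂ A)

theorem cl_of {A : Set E} {K : IntermediateField ℂ E} (hA : A ⊆ K)
    (cK : ∀ f : E, IsAlgebraic K f → f ∈ K) {f : E} (hf : Al A f) : f ∈ K := by
  have hle : IntermediateField.adjoin ℂ A ≤ K := IntermediateField.adjoin_le_iff.2 hA
  exact cK f (alg_mono hle hf)

theorem pt_comp {σ τ : Type} (ρ : τ → σ) {ξ : σ → E} {p : σ → ℂ} (h : p ∈ Pt ξ) :
    p ∘ ρ ∈ Pt (ξ ∘ ρ) := by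
  intro g hg
  have h1 := h (rename ρ g) (by rw [aeval_rename]; exact hg)
  rwa [eval_rename] at h1

theorem not_const {n : ℕ} (G : Cv n E) (hadd : AddFree G.P) (m : Fin n → ℤ) (hm : m ≠ 0) (c : ℂ) :
    ∑ j, ((m j : ℤ) : E) * G.x j ≠ algebraMap ℂ E c := by
  intro h
  apply hadd m hm c
  rw [← G.hx, map_sub, map_sum, aeval_C, sub_eq_zero, ← h]
  refine Finset.sum_congr rfl fun j _ => ?_
  simp

end basic

/-- case (i): all monomials are transcendental -/
theorem case1 (h2 : S_fdense) (F : Type) [Field F] [Algebra ℂ F] (G : Cv 2 F) (Q : Finset F)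
    (hadd : AddFree G.P) (hQ : ∀ k ∈ Q, Al (Set.range (Sum.elim G.x G.y)) k)
    (htr : ∀ m : Fin 2 → ℤ, m ≠ 0 →
      Transcendental (IntermediateField.adjoin ℂ (Set.range G.x)) (∏ j, G.y j ^ m j)) :
    ∃ (z : Fin 2 → ℂ) (q : F → ℂ),
      Sum.elim (Sum.elim z (fun i => Complex.exp (z i))) (fun k : Q => q k) ∈
        Pt (Sum.elim (Sum.elim G.x G.y) (fun k : Q => (k : F))) := by
  classical
  obtain ⟨A, H, hH, -, hrel, hlift⟩ := Pool.Agent.Q166.EG.lift0 F (Fin 2 ⊕ Fin 2) (Option Q)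
    (Sum.elim G.x G.y) (fun o => o.elim (1 : F) (fun k => (k : F))) none (by
      intro k
      rcases k with _ | k
      · exact isAlgebraic_one
      · exact hQ k k.2)
  obtain ⟨z, hz, hzH⟩ := h2 2 F G H hadd htr hH
  obtain ⟨p, hp, hp1, -⟩ := hlift _ hz hzH 1 (by
    have e1 : ∀ (R : Type) [CommRing R] (φ : MvPolynomial (Fin 2 ⊕ Fin 2) ℂ →+* R),
        (A.map φ).eval 1 = φ (A.eval 1) := by
      intro R _ φ
      rw [← map_one φ, Polynomial.eval_map_apply]
    have h3 := hrel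
    simp only [Option.elim_none] at h3
    rw [e1] at h3
    rw [e1]
    exact hz _ h3)
  refine ⟨z, fun k => if h : k ∈ Q then p (Sum.inr (some ⟨k, h⟩)) else 0, ?_⟩
  have h4 := pt_comp (Sum.map id some : (Fin 2 ⊕ Fin 2) ⊕ Q → (Fin 2 ⊕ Fin 2) ⊕ Option Q) hp
  have e1 : p ∘ (Sum.map id some : (Fin 2 ⊕ Fin 2) ⊕ Q → (Fin 2 ⊕ Fin 2) ⊕ Option Q) =
      Sum.elim (Sum.elim z (fun i => Complex.exp (z i)))
        (fun k : Q => if h : (k : F) ∈ Q then p (Sum.inr (some ⟨k, h⟩)) else 0) := by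
    funext o
    rcases o with i | k
    · exact hp1 i
    · simp only [Sum.elim_inr]
      rw [dif_pos k.2]
      rfl
  have e2 : (Sum.elim (Sum.elim G.x G.y) (fun o : Option Q => o.elim (1 : F) (fun k => (k : F)))) ∘
      (Sum.map id some : (Fin 2 ⊕ Fin 2) ⊕ Q → (Fin 2 ⊕ Fin 2) ⊕ Option Q) =
      Sum.elim (Sum.elim G.x G.y) (fun k : Q => (k : F)) := by
    funext o
    rcases o with i | k <;> rfl
  rw [e1, e2] at h4
  exact h4


section fields

variable {E : Type} [Field E] [Algebra ℂ E]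

theorem const_of_alg {z : E} (h : IsAlgebraic ℂ z) : ∃ c : ℂ, z = algebraMap ℂ E c := by
  have h1 := IsAlgClosed.degree_eq_one_of_irreducible ℂ (minpoly.irreducible h.isIntegral)
  obtain ⟨c, hc⟩ := minpoly.mem_range_of_degree_eq_one ℂ z h1
  exact ⟨c, hc.symm⟩

theorem pair_ind {z w : E} (hz : Transcendental ℂ z) (hw : ¬ Al {z} w) :
    AlgebraicIndependent ℂ ![z, w] := by
  have hi : AlgebraicIndependent ℂ ![z] := algebraicIndependent_unique_type_iff.2 hz
  have e : Set.range ![z] = {z} := by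
    rw [Matrix.range_cons, Matrix.range_empty, Set.union_empty]
  have h3 : Transcendental (Algebra.adjoin ℂ (Set.range ![z])) w := by
    intro h
    apply hw
    rw [e] at h
    exact IsAlgebraic.ringHom_of_comp_eq
      (Subalgebra.inclusion (IntermediateField.algebra_adjoin_le_adjoin ℂ {z}))
      (RingHom.id E) h (Subalgebra.inclusion_injective _) (by ext; rfl)
  have h4 := (hi.option_iff_transcendental w).2 h3
  have h5 := h4.comp ![some 0, none] (by decide)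
  have e2 : (fun o : Option (Fin 1) => o.elim w ![z]) ∘ ![some 0, none] = ![z, w] := by
    funext i
    fin_cases i <;> rfl
  rw [e2] at h5
  exact h5

/-- a primitive exponent of an algebraic monomial -/
theorem prim {K : IntermediateField ℂ E} (y : Fin 2 → E) (m : Fin 2 → ℤ) (hm : m ≠ 0)
    (h : IsAlgebraic K (∏ j, y j ^ m j)) :
    ∃ (m' : Fin 2 → ℤ) (u v : ℤ), IsAlgebraic K (∏ j, y j ^ m' j) ∧ m' 0 * u + m' 1 * v = 1 := by
  have hg : Int.gcd (m 0) (m 1) ≠ 0 := by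
    intro h0
    rw [Int.gcd_eq_zero_iff] at h0
    apply hm
    funext i
    fin_cases i
    · exact h0.1
    · exact h0.2
  obtain ⟨a, ha⟩ : ((Int.gcd (m 0) (m 1) : ℕ) : ℤ) ∣ m 0 := Int.gcd_dvd_left ..
  obtain ⟨b, hb⟩ : ((Int.gcd (m 0) (m 1) : ℕ) : ℤ) ∣ m 1 := Int.gcd_dvd_right ..
  have hbez := Int.gcd_eq_gcd_ab (m 0) (m 1)
  set g : ℕ := Int.gcd (m 0) (m 1) with hgdef
  refine ⟨![a, b], Int.gcdA (m 0) (m 1), Int.gcdB (m 0) (m 1), ?_, ?_⟩
  · have h1 : (∏ j, y j ^ (![a, b] : Fin 2 → ℤ) j) ^ g = ∏ j, y j ^ m j := by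
      rw [Fin.prod_univ_two, Fin.prod_univ_two, ha, hb]
      show (y 0 ^ a * y 1 ^ b) ^ g = _
      rw [mul_pow, ← zpow_natCast, ← zpow_natCast, ← zpow_mul, ← zpow_mul, mul_comm a, mul_comm b]
    rw [← h1] at h
    exact h.of_pow (Nat.pos_of_ne_zero hg)
  · show a * _ + b * _ = 1
    have h2 : (g : ℤ) * (a * Int.gcdA (m 0) (m 1) + b * Int.gcdB (m 0) (m 1)) = (g : ℤ) * 1 := by
      rw [mul_one]
      conv_rhs => rw [hbez]
      conv_rhs => arg 1; arg 1; rw [ha]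
      conv_rhs => arg 2; arg 1; rw [hb]
      ring
    exact mul_left_cancel₀ (by exact_mod_cast hg) h2

end fields

/-- case (ii): there is an algebraic monomial -/
theorem case2 (h1 : S_ov) (F : Type) [Field F] [Algebra ℂ F] (G : Cv 2 F) (Q : Finset F)
    (hadd : AddFree G.P) (hmul : ∀ m : Fin 2 → ℤ, m ≠ 0 → ∀ c : ℂ, ∏ j, G.y j ^ m j ≠ algebraMap ℂ F c)
    (hT : ∃ i, G.T i) (hQ : ∀ k ∈ Q, Al (Set.range (Sum.elim G.x G.y)) k)
    (m : Fin 2 → ℤ) (u v : ℤ) (hbez : m 0 * u + m 1 * v = 1)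
    (halg : Al (Set.range G.x) (∏ j, G.y j ^ m j)) :
    ∃ (z : Fin 2 → ℂ) (q : F → ℂ),
      Sum.elim (Sum.elim z (fun i => Complex.exp (z i))) (fun k : Q => q k) ∈
        Pt (Sum.elim (Sum.elim G.x G.y) (fun k : Q => (k : F))) := by
  classical
  obtain ⟨M, hM⟩ : ∃ M : Matrix (Fin 2) (Fin 2) ℤ, M = !![m 0, m 1; -v, u] := ⟨_, rfl⟩
  obtain ⟨N, hN⟩ : ∃ N : Matrix (Fin 2) (Fin 2) ℤ, N = !![u, -m 1; v, m 0] := ⟨_, rfl⟩
  have hM00 : M 0 0 = m 0 := by rw [hM]; rfl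
  have hM01 : M 0 1 = m 1 := by rw [hM]; rfl
  have hM10 : M 1 0 = -v := by rw [hM]; rfl
  have hM11 : M 1 1 = u := by rw [hM]; rfl
  have hNM : N * M = 1 := by
    rw [hN, hM, Matrix.mul_fin_two, Matrix.one_fin_two]
    congr 1
    ext i j
    fin_cases i <;> fin_cases j <;> simp <;> linarith
  have hMN : M * N = 1 := by
    rw [hN, hM, Matrix.mul_fin_two, Matrix.one_fin_two]
    congr 1
    ext i j
    fin_cases i <;> fin_cases j <;> simp <;> linarith
  obtain ⟨x', hx'⟩ : ∃ x' : Fin 2 → F, x' = fun i => ∑ j, ((M i j : ℤ) : F) * G.x j := ⟨_, rfl⟩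
  obtain ⟨y', hy'⟩ : ∃ y' : Fin 2 → F, y' = fun i => ∏ j, G.y j ^ M i j := ⟨_, rfl⟩
  have hx : ∀ j, G.x j = ∑ i, ((N j i : ℤ) : F) * x' i := by
    intro j
    rw [hx']
    exact (mul_sum_cast N M hNM G.x j).symm
  have hy : ∀ j, G.y j = ∏ i, y' i ^ N j i := by
    intro j
    rw [hy']
    exact (prod_zpow_mul N M hNM G.y G.hy j).symm
  have hy'0 : ∀ i, y' i ≠ 0 := by
    intro i
    rw [hy']
    exact Finset.prod_ne_zero_iff.2 fun j _ => zpow_ne_zero _ (G.hy j)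
  have hm0 : m ≠ 0 := by
    intro h
    rw [h] at hbez
    simp at hbez
  have hyy : y' 0 = ∏ j, G.y j ^ m j := by
    rw [hy']
    simp only [Fin.prod_univ_two, hM00, hM01]
  -- linear forms
  have hlin : ∀ m₁ m₂ : ℤ, (m₁ ≠ 0 ∨ m₂ ≠ 0) → ∀ c : ℂ,
      (m₁ : F) * x' 0 + m₂ * x' 1 ≠ algebraMap ℂ F c := by
    intro m₁ m₂ hmm c hc
    refine not_const G hadd ![m₁ * m 0 - m₂ * v, m₁ * m 1 + m₂ * u] ?_ c ?_
    · intro h0
      have e0 : m₁ * m 0 - m₂ * v = 0 := congrFun h0 0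
      have e1 : m₁ * m 1 + m₂ * u = 0 := congrFun h0 1
      have f1 : m₁ = 0 := by linear_combination u * e0 + v * e1 - m₁ * hbez
      have f2 : m₂ = 0 := by linear_combination (-(m 1)) * e0 + m 0 * e1 - m₂ * hbez
      rcases hmm with h | h
      · exact h f1
      · exact h f2
    · rw [← hc, Fin.sum_univ_two, hx']
      simp only [Fin.sum_univ_two, hM00, hM01, hM10, hM11]
      show ((m₁ * m 0 - m₂ * v : ℤ) : F) * G.x 0 + ((m₁ * m 1 + m₂ * u : ℤ) : F) * G.x 1 = _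
      push_cast
      ring
  have hz : Transcendental ℂ (x' 0) := by
    intro h
    obtain ⟨c, hc⟩ := const_of_alg h
    refine hlin 1 0 (Or.inl one_ne_zero) c ?_
    rw [← hc]
    simp
  obtain ⟨K, mK, cK, aK⟩ := exists_cl ({x' 0} : Set F)
  have kz : x' 0 ∈ K := aK (IntermediateField.subset_adjoin ℂ _ rfl)
  have kθ : x' 1 ∈ K := by
    by_contra hcon
    rw [mK] at hcon
    have hi := pair_ind hz hcon
    rw [algebraicIndependent_iff] at hi
    have h5 := hi (subM N G.P) (by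
      rw [aeval_subM]
      have e : (fun i => ∑ j, ((N i j : ℤ) : F) * (![x' 0, x' 1] : Fin 2 → F) j) = G.x := by
        funext i
        rw [hx i, Fin.sum_univ_two, Fin.sum_univ_two]
        rfl
      rw [e, G.hx])
    apply G.hP.ne_zero
    rw [← subM_subM N M hNM G.P, h5]
    unfold subM
    exact map_zero _
  have kx' : ∀ i, x' i ∈ K := by
    intro i
    fin_cases i
    · exact kz
    · exact kθ
  have kx : ∀ j, G.x j ∈ K := by
    intro j
    rw [hx j]
    exact sum_mem fun i _ => mul_mem (intCast_mem _ _) (kx' i)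
  have ky0 : y' 0 ∈ K := by
    rw [hyy]
    exact cl_of (by rintro _ ⟨j, rfl⟩; exact kx j) cK halg
  have kw : y' 1 ∉ K := by
    intro h
    have ky' : ∀ i, y' i ∈ K := by
      intro i
      fin_cases i
      · exact ky0
      · exact h
    obtain ⟨i, hi⟩ := hT
    apply hi
    have h2 : G.y i ∈ K := by
      rw [hy i]
      exact prod_mem fun l _ => zpow_mem (ky' l) _
    refine alg_mono ?_ ((mK _).1 h2)
    rw [IntermediateField.adjoin_le_iff, Set.singleton_subset_iff, hx']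
    exact sum_mem fun j _ => mul_mem (intCast_mem _ _)
      (IntermediateField.subset_adjoin _ _ ⟨j, rfl⟩)
  have hind : AlgebraicIndependent ℂ ![x' 0, y' 1] := pair_ind hz (fun h => kw ((mK _).2 h))
  obtain ⟨K1, mK1, cK1, aK1⟩ := exists_cl ({x' 0, y' 1} : Set F)
  have hK01 : ∀ f ∈ K, f ∈ K1 := by
    intro f hf
    refine cl_of ?_ cK1 ((mK f).1 hf)
    rintro _ rfl
    exact aK1 (IntermediateField.subset_adjoin ℂ _ (Or.inl rfl))
  have k1y' : ∀ i, y' i ∈ K1 := by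
    intro i
    fin_cases i
    · exact hK01 _ ky0
    · exact aK1 (IntermediateField.subset_adjoin ℂ _ (Or.inr rfl))
  have k1y : ∀ i, G.y i ∈ K1 := by
    intro i
    rw [hy i]
    exact prod_mem fun l _ => zpow_mem (k1y' l) _
  obtain ⟨Q', hQ'⟩ : ∃ Q' : Finset F, Q' = Q ∪ {G.x 0, G.x 1, G.y 0, G.y 1} := ⟨_, rfl⟩
  have qQ : ∀ k ∈ Q, k ∈ Q' := by
    intro k hk
    rw [hQ']
    exact Finset.mem_union_left _ hk
  have qx : ∀ i, G.x i ∈ Q' := by
    intro i
    rw [hQ']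
    fin_cases i <;> simp
  have qy : ∀ i, G.y i ∈ Q' := by
    intro i
    rw [hQ']
    fin_cases i <;> simp
  obtain ⟨z₀, θ₀, q, hpt⟩ := h1 F (x' 0) (x' 1) (y' 0) (y' 1) hind ((mK _).1 kθ) ((mK _).1 ky0)
    (hy'0 0) (by rw [hyy]; exact hmul m hm0) hlin Q' (by
      intro k hk
      rw [← mK1]
      rw [hQ', Finset.mem_union] at hk
      rcases hk with hk | hk
      · refine cl_of ?_ cK1 (hQ k hk)
        rintro _ ⟨i | i, rfl⟩
        · exact hK01 _ (kx i)
        · exact k1y i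
      · simp only [Finset.mem_insert, Finset.mem_singleton] at hk
        rcases hk with rfl | rfl | rfl | rfl
        · exact hK01 _ (kx 0)
        · exact hK01 _ (kx 1)
        · exact k1y 0
        · exact k1y 1)
  -- the values
  have r1 : ∀ i, q (G.x i) = (N i 0 : ℂ) * z₀ + (N i 1 : ℂ) * θ₀ := by
    intro i
    have h2 := hpt (X (Sum.inr ⟨G.x i, qx i⟩) - (C ((N i 0 : ℤ) : ℂ) * X (Sum.inl 0) +
      C ((N i 1 : ℤ) : ℂ) * X (Sum.inl 1))) (by
        simp only [map_sub, map_add, map_mul, aeval_X, aeval_C, Sum.elim_inr, Sum.elim_inl]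
        rw [hx i, Fin.sum_univ_two]
        simp)
    simp only [map_sub, map_add, map_mul, eval_X, eval_C, Sum.elim_inr, Sum.elim_inl] at h2
    have h3 := sub_eq_zero.1 h2
    simpa using h3
  obtain ⟨κ, hκ⟩ := Pool.Agent.H390.FH.exists_K N
  have r2 : ∀ i, q (G.y i) * (Complex.exp z₀ * Complex.exp θ₀) ^ κ =
      Complex.exp z₀ ^ (N i 0 + κ).toNat * Complex.exp θ₀ ^ (N i 1 + κ).toNat := by
    intro i
    have h2 := hpt (X (Sum.inr ⟨G.y i, qy i⟩) * (X (Sum.inl 2) * X (Sum.inl 3)) ^ κ -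
      X (Sum.inl 2) ^ (N i 0 + κ).toNat * X (Sum.inl 3) ^ (N i 1 + κ).toNat) (by
        simp only [map_sub, map_mul, map_pow, aeval_X, Sum.elim_inr, Sum.elim_inl]
        have h3 := prod_shift (N i) κ (hκ i) y' hy'0
        rw [← hy i, Fin.prod_univ_two, Fin.prod_univ_two] at h3
        exact sub_eq_zero.2 h3)
    simp only [map_sub, map_mul, map_pow, eval_X, Sum.elim_inr, Sum.elim_inl] at h2
    exact sub_eq_zero.1 h2
  have r3 : ∀ i, q (G.y i) = Complex.exp (q (G.x i)) := by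
    intro i
    have hne : (Complex.exp z₀ * Complex.exp θ₀) ^ κ ≠ 0 :=
      pow_ne_zero _ (mul_ne_zero (Complex.exp_ne_zero _) (Complex.exp_ne_zero _))
    apply mul_right_cancel₀ hne
    rw [r2 i, r1 i, Complex.exp_add, Complex.exp_int_mul, Complex.exp_int_mul]
    have h3 := prod_shift (N i) κ (hκ i) ![Complex.exp z₀, Complex.exp θ₀] (by
      intro j
      fin_cases j
      · exact Complex.exp_ne_zero _
      · exact Complex.exp_ne_zero _)
    rw [Fin.prod_univ_two, Fin.prod_univ_two, Fin.prod_univ_two] at h3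
    exact h3.symm
  refine ⟨fun i => q (G.x i), q, ?_⟩
  have h4 := pt_comp (fun o : (Fin 2 ⊕ Fin 2) ⊕ Q =>
    (o.elim (fun s => s.elim (fun i => Sum.inr ⟨G.x i, qx i⟩) (fun i => Sum.inr ⟨G.y i, qy i⟩))
      (fun k => Sum.inr ⟨k.1, qQ k.1 k.2⟩) : Fin 4 ⊕ Q')) hpt
  have e1 : (Sum.elim ![z₀, θ₀, Complex.exp z₀, Complex.exp θ₀] (fun k : Q' => q k)) ∘
      (fun o : (Fin 2 ⊕ Fin 2) ⊕ Q =>
      (o.elim (fun s => s.elim (fun i => Sum.inr ⟨G.x i, qx i⟩) (fun i => Sum.inr ⟨G.y i, qy i⟩))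
      (fun k => Sum.inr ⟨k.1, qQ k.1 k.2⟩) : Fin 4 ⊕ Q')) =
      Sum.elim (Sum.elim (fun i => q (G.x i)) (fun i => Complex.exp (q (G.x i))))
        (fun k : Q => q k) := by
    funext o
    rcases o with (i | i) | k
    · rfl
    · exact r3 i
    · rfl
  have e2 : (Sum.elim ![x' 0, x' 1, y' 0, y' 1] (fun k : Q' => (k : F))) ∘
      (fun o : (Fin 2 ⊕ Fin 2) ⊕ Q =>
      (o.elim (fun s => s.elim (fun i => Sum.inr ⟨G.x i, qx i⟩) (fun i => Sum.inr ⟨G.y i, qy i⟩))
      (fun k => Sum.inr ⟨k.1, qQ k.1 k.2⟩) : Fin 4 ⊕ Q')) =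
      Sum.elim (Sum.elim G.x G.y) (fun k : Q => (k : F)) := by
    funext o
    rcases o with (i | i) | k <;> rfl
  rw [e1, e2] at h4
  exact h4

/-- JOB CURVE2 -/
theorem curve2 (h1 : S_ov) (h2 : S_fdense) : S_curve2 := by
  intro F _ _ G Q hadd hmul hT hQ
  by_cases h : ∀ m : Fin 2 → ℤ, m ≠ 0 →
      Transcendental (IntermediateField.adjoin ℂ (Set.range G.x)) (∏ j, G.y j ^ m j)
  · exact case1 h2 F G Q hadd hQ h
  · push Not at h
    obtain ⟨m, hm, hm2⟩ := h
    obtain ⟨m', u, v, h3, h4⟩ := prim G.y m hm (not_not.1 hm2)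
    exact case2 h1 F G Q hadd hmul hT hQ m' u v h4 h3

end Pool.Agent.H127.EX
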